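import Pool.Agent.TH903.Semi.Family
import Pool.Agent.TH903.Semi.Lower

set_option autoImplicit false
set_option linter.unusedSectionVars false

/-!
Poonen's strict form of the union-closed sets conjecture for families with a chain of members whose
consecutive steps are left modular in the corresponding upper intervals.
-/

namespace Pool.Agent.V1121.UC.Chain

open Finset OrderDual Pool.Agent.TH903.Semi

/-- the lattice theorem -/
theorem chain_aux : ∀ (n : ℕ) (L : Type) [Lattice L] [BoundedOrder L] [Finite L] (m j : ℕ → L),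
    m 0 = ⊤ → m n = ⊥ → (∀ i < n, m (i + 1) ≤ m i) → (∀ i < n, j i ≤ m i) →
    (∀ i < n, ¬ j i ≤ m (i + 1)) →
    (∀ i < n, ∀ x, j i ≤ x → x ≤ m i → (x ⊓ m (i + 1)) ⊔ j i = x) →
    (∃ i < n, 2 * Nat.card {x : L // j i ≤ x} < Nat.card L) ∨ BoolLike L := by
  intro n
  induction n with
  | zero =>
    intro L _ _ _ m j h0 hn _ _ _ _
    exact Or.inr (boolLike_of_subsingleton L (by rw [← hn, h0]))
  | succ n ih =>
    intro L _ _ _ m j h0 hn hm hj hnj hkey
    classical
    have := Fintype.ofFinite L
    by_cases hcon : 2 * Nat.card {x : L // j 0 ≤ x} < Nat.card L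
    · exact Or.inl ⟨0, Nat.succ_pos n, hcon⟩
    push Not at hcon
    set M := m 1 with hM
    set J := j 0 with hJ
    have hjm : ¬ J ≤ M := hnj 0 (Nat.succ_pos n)
    have key : ∀ x, J ≤ x → (x ⊓ M) ⊔ J = x := by
      intro x hx
      exact hkey 0 (Nat.succ_pos n) x hx (by rw [h0]; exact le_top)
    have hmaps : ∀ x ∈ univ.filter (fun x : L => J ≤ x), x ⊓ M ∈ univ.filter (fun x : L => ¬ J ≤ x) := by
      intro x _
      simp only [mem_filter, mem_univ, true_and]
      exact fun h => hjm (h.trans inf_le_right)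
    have hinj : Set.InjOn (fun x : L => x ⊓ M) (univ.filter (fun x : L => J ≤ x) : Finset L) := by
      intro x hx y hy hxy
      simp only [coe_filter, mem_univ, true_and, Set.mem_ofPred_eq] at hx hy
      have hxy' : x ⊓ M = y ⊓ M := hxy
      rw [← key x hx, ← key y hy, hxy']
    have hcard : (univ.filter (fun x : L => ¬ J ≤ x)).card ≤ (univ.filter (fun x : L => J ≤ x)).card := by
      have h2 : Nat.card {x : L // J ≤ x} = (univ.filter (fun x => J ≤ x)).card := by
        rw [Nat.card_eq_fintype_card, Fintype.card_subtype]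
      have h3 : Nat.card L = (univ.filter (fun x : L => J ≤ x)).card + (univ.filter (fun x => ¬ J ≤ x)).card := by
        rw [Nat.card_eq_fintype_card, ← Finset.card_univ, Finset.card_filter_add_card_filter_not]
      omega
    have hsurj := surj_on_of_inj_on_of_card_le (fun x (_ : x ∈ univ.filter (fun x : L => J ≤ x)) => x ⊓ M)
      hmaps (fun x y hx hy hxy => hinj hx hy hxy) hcard
    have hD : Decomp M J := by
      have hcov : ∀ x, ¬ J ≤ x → ∃ y, J ≤ y ∧ x = y ⊓ M := by
        intro x hx
        obtain ⟨y, hy, hxy⟩ := hsurj x (by simp [hx])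
        simp only [mem_filter, mem_univ, true_and] at hy
        exact ⟨y, hy, hxy⟩
      refine ⟨hjm, ?_, ?_, ?_⟩
      · intro x hx
        obtain ⟨y, -, rfl⟩ := hcov x hx
        exact inf_le_right
      · intro y hy
        obtain ⟨z, hz, rfl⟩ := hcov y (fun h => hjm (h.trans hy))
        rw [key z hz]
      · exact key
    have hmM : ∀ i < n + 1, m (i + 1) ≤ M := by
      intro i
      induction i with
      | zero => intro _; exact le_rfl
      | succ i ihi =>
        intro hi
        exact (hm (i + 1) hi).trans (ihi (Nat.lt_of_succ_lt hi))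
    let m' : ℕ → Set.Iic M := fun i => ⟨m (i + 1) ⊓ M, inf_le_right⟩
    let j' : ℕ → Set.Iic M := fun i => ⟨j (i + 1) ⊓ M, inf_le_right⟩
    have em : ∀ i < n + 1, m (i + 1) ⊓ M = m (i + 1) := fun i hi => inf_eq_left.mpr (hmM i hi)
    have ej : ∀ i < n, j (i + 1) ⊓ M = j (i + 1) := fun i hi =>
      inf_eq_left.mpr ((hj (i + 1) (Nat.succ_lt_succ hi)).trans (hmM i (hi.trans (Nat.lt_succ_self n))))
    have hrec := ih (Set.Iic M) m' j' (by
        apply Subtype.ext
        change m (0 + 1) ⊓ M = M
        rw [em 0 (Nat.succ_pos n)]) (by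
        apply Subtype.ext
        change m (n + 1) ⊓ M = ⊥
        rw [hn, bot_inf_eq]) (by
        intro i hi
        change m (i + 1 + 1) ⊓ M ≤ m (i + 1) ⊓ M
        exact inf_le_inf_right M (hm (i + 1) (Nat.succ_lt_succ hi))) (by
        intro i hi
        change j (i + 1) ⊓ M ≤ m (i + 1) ⊓ M
        exact inf_le_inf_right M (hj (i + 1) (Nat.succ_lt_succ hi))) (by
        intro i hi h
        change j (i + 1) ⊓ M ≤ m (i + 1 + 1) ⊓ M at h
        rw [ej i hi, em (i + 1) (Nat.succ_lt_succ hi)] at h
        exact hnj (i + 1) (Nat.succ_lt_succ hi) h) (by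
        rintro i hi ⟨x, hx⟩ h1 h2
        change j (i + 1) ⊓ M ≤ x at h1
        change x ≤ m (i + 1) ⊓ M at h2
        rw [ej i hi] at h1
        rw [em i (hi.trans (Nat.lt_succ_self n))] at h2
        apply Subtype.ext
        change (x ⊓ (m (i + 1 + 1) ⊓ M)) ⊔ (j (i + 1) ⊓ M) = x
        rw [ej i hi, em (i + 1) (Nat.succ_lt_succ hi)]
        exact hkey (i + 1) (Nat.succ_lt_succ hi) x h1 h2)
    rcases hrec with ⟨i, hi, hlt⟩ | hbool
    · left
      refine ⟨i + 1, Nat.succ_lt_succ hi, ?_⟩
      have hle : j (i + 1) ≤ M := by rw [← ej i hi]; exact inf_le_right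
      have h1 := hD.card_up hle
      have h2 : j' i = ⟨j (i + 1), hle⟩ := Subtype.ext (ej i hi)
      rw [h2] at hlt
      rw [h1, hD.card]
      omega
    · obtain ⟨k, hn', hat, hb⟩ := hbool
      right
      refine ⟨k + 1, ?_, ?_, ?_⟩
      · rw [hD.card, hn', pow_succ, mul_comm]
      · have hset : {a : L | IsAtom a} = insert J (Subtype.val '' {a : Set.Iic M | IsAtom a}) := by
          ext a
          simp only [Set.mem_ofPred_eq, Set.mem_insert_iff, Set.mem_image]
          constructor
          · intro ha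
            by_cases hfa : J ≤ a
            · left
              rcases ha.le_iff.mp hfa with h' | h'
              · exact absurd h' hD.isAtom.1
              · exact h'.symm
            · right
              exact ⟨⟨a, hD.cover a hfa⟩, isAtom_val.mpr ha, rfl⟩
          · rintro (rfl | ⟨a, ha, rfl⟩)
            · exact hD.isAtom
            · exact isAtom_val.mp ha
        rw [hset, Set.ncard_insert_of_notMem, Set.ncard_image_of_injective _ Subtype.val_injective, hat]
        rintro ⟨a, -, ha⟩
        exact hD.nle (ha ▸ a.2)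
      · intro a ha hna
        by_cases hfa : J ≤ a
        · exact hD.card_up' hfa (fun h' => hna (h' ▸ hD.isAtom))
        · have ham := hD.cover a hfa
          rw [hD.card_up ham, hD.card]
          have := hb ⟨a, ham⟩ (fun h' => ha (congrArg Subtype.val h')) (fun h' => hna (isAtom_val.mp h'))
          omega

/-- Poonen's inequality in a lattice with a maximal chain whose steps are left modular. -/
theorem strictJ_of_chain (L : Type) [Lattice L] [BoundedOrder L] [Finite L] (n : ℕ) (c : ℕ → L)
    (h0 : c 0 = ⊥) (hn : c n = ⊤) (hc : ∀ i < n, c i ⋖ c (i + 1))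
    (hmod : ∀ i < n, ∀ y z : L, c i ≤ y → y ≤ z → (y ⊔ c (i + 1)) ⊓ z = y ⊔ (c (i + 1) ⊓ z)) :
    StrictJ Lᵒᵈ := by
  classical
  have hex : ∀ i, ∃ q : Lᵒᵈ, i < n → SupIrred q ∧ q ≤ toDual (c i) ∧ ¬ q ≤ toDual (c (i + 1)) := by
    intro i
    by_cases hi : i < n
    · have h1 : ¬ toDual (c i) ≤ toDual (c (i + 1)) := fun h => not_le_of_gt (hc i hi).1 h
      obtain ⟨q, a, b, d, -⟩ := exists_irred h1
      exact ⟨q, fun _ => ⟨a, b, d⟩⟩
    · exact ⟨⊥, fun h => absurd h hi⟩
  choose j hj using hex
  rcases chain_aux n Lᵒᵈ (fun i => toDual (c i)) j (by rw [h0]; rfl) (by rw [hn]; rfl)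
    (fun i hi => (hc i hi).le) (fun i hi => (hj i hi).2.1) (fun i hi => (hj i hi).2.2) (by
      intro i hi x h1 h2
      obtain ⟨-, h3, h4⟩ := hj i hi
      -- translate
      have e1 : c i ≤ ofDual (j i) := h3
      have e2 : ¬ c (i + 1) ≤ ofDual (j i) := h4
      have e3 : ofDual x ≤ ofDual (j i) := h1
      have e4 : c i ≤ ofDual x := h2
      have e5 := hmod i hi (ofDual x) (ofDual (j i)) e4 e3
      have e6 : c (i + 1) ⊓ ofDual (j i) = c i := by
        rcases eq_or_lt_of_le (inf_le_left : c (i + 1) ⊓ ofDual (j i) ≤ c (i + 1)) with h | h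
        · exact absurd (inf_eq_left.mp h) e2
        · rcases eq_or_lt_of_le (le_inf (hc i hi).le e1) with h' | h'
          · exact h'.symm
          · exact absurd h ((hc i hi).2 h')
      rw [e6, sup_eq_left.mpr e4] at e5
      exact e5) with ⟨i, hi, h⟩ | h
  · exact Or.inl ⟨j i, (hj i hi).1, h⟩
  · exact Or.inr h

end Pool.Agent.V1121.UC.Chain
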