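import Pool.Agent.V1121.BP.Pi

/-!
# Weak order intervals: exchange lemmas
-/

namespace Pool.Agent.V1121.UC

open Pool.Agent.V1121.BP

variable {B W : Type*} [Group W] {M : CoxeterMatrix B}

/-- The (right) weak order of a Coxeter group: `x ≤ y` if `ℓ(y) = ℓ(x) + ℓ(x⁻¹ y)`, that is, if some
reduced word of `y` begins with a reduced word of `x`. -/
def WeakLE (cs : CoxeterSystem M W) (x y : W) : Prop :=
  cs.length y = cs.length x + cs.length (x⁻¹ * y)

section
variable {cs : CoxeterSystem M W}

lemma pre {u p v : W} (h : cs.length (u * v) = cs.length u + cs.length v) (hp : WeakLE cs p v) :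
    cs.length (u * p) = cs.length u + cs.length p ∧ WeakLE cs (u * p) (u * v) := by
  unfold WeakLE at *
  have e1 : (u * p)⁻¹ * (u * v) = p⁻¹ * v := by group
  have e2 : u * v = u * p * (p⁻¹ * v) := by group
  have h1 := cs.length_mul_le u p
  have h2 := cs.length_mul_le (u * p) (p⁻¹ * v)
  rw [← e2] at h2
  rw [e1]
  omega

lemma lift_aux {z v : W} {i : B} {γ β η : List B} {j : B} (hz : WeakLE cs z v)
    (hzi : cs.length z < cs.length (cs.simple i * z)) (hlη : cs.length (z⁻¹ * v) = η.length)
    (h2 : cs.simple i * v = z * cs.wordProd (γ ++ β)) (hγ : η = γ ++ j :: β) :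
    WeakLE cs (cs.simple i * z) v := by
  have h3 : (cs.simple i * z)⁻¹ * v = cs.wordProd (γ ++ β) := by
    rw [mul_inv_rev, cs.inv_simple, mul_assoc, h2]
    group
  have h4 : cs.length ((cs.simple i * z)⁻¹ * v) ≤ (γ ++ β).length := by
    rw [h3]; exact cs.length_wordProd_le _
  have h5 : (γ ++ β).length + 1 = η.length := by
    rw [hγ]; simp only [List.length_append, List.length_cons]; omega
  have h6 : v = cs.simple i * z * ((cs.simple i * z)⁻¹ * v) := by group
  have h7 := cs.length_mul_le (cs.simple i * z) ((cs.simple i * z)⁻¹ * v)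
  rw [← h6] at h7
  unfold WeakLE at *
  rcases lcases (cs := cs) i z with h8 | h8 <;> omega

/-- the exchange argument: if `z ≤ v`, `s ≤ v` and not `s ≤ z`, then `s z ≤ v` -/
lemma lift {z v : W} {i : B} (hz : WeakLE cs z v) (hv : cs.length (cs.simple i * v) < cs.length v)
    (hzi : cs.length z < cs.length (cs.simple i * z)) : WeakLE cs (cs.simple i * z) v := by
  obtain ⟨ω, hω, hωz⟩ := exists_word (cs := cs) z
  obtain ⟨η, hη, hηy⟩ := exists_word (cs := cs) (z⁻¹ * v)
  have hv' : cs.wordProd (ω ++ η) = v := by rw [cs.wordProd_append, hωz, hηy]; group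
  have hv2 : cs.length (cs.simple i * cs.wordProd (ω ++ η)) < cs.length (cs.wordProd (ω ++ η)) := by
    rw [hv']; exact hv
  obtain ⟨α, j, β, h1, h2⟩ := exch hv2
  have hlω : cs.length z = ω.length := by rw [← hωz]; exact hω
  have hlη : cs.length (z⁻¹ * v) = η.length := by rw [← hηy]; exact hη
  rw [hv'] at h2
  rcases List.append_eq_append_iff.mp h1 with ⟨γ, hα, hγ⟩ | ⟨γ, hω', hγ⟩
  · -- the letter is deleted in `η`
    refine lift_aux hz hzi hlη (γ := γ) (β := β) (j := j) ?_ hγ
    rw [h2, hα, List.append_assoc, cs.wordProd_append, hωz]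
  · rcases γ with _ | ⟨k, γ⟩
    · simp only [List.nil_append, List.append_nil] at hω' hγ
      refine lift_aux hz hzi hlη (γ := []) (β := β) (j := j) ?_ (by simpa using hγ.symm)
      rw [h2, ← hω', cs.wordProd_append, hωz, List.nil_append]
    · -- the letter is deleted in `ω`: impossible
      exfalso
      simp only [List.cons_append, List.cons.injEq] at hγ
      obtain ⟨-, hβ⟩ := hγ
      have h3 : cs.simple i * z = cs.wordProd (α ++ γ) := by
        rw [hβ, ← List.append_assoc, cs.wordProd_append, hηy] at h2
        have : cs.simple i * v * (z⁻¹ * v)⁻¹ = cs.wordProd (α ++ γ) := by rw [h2]; group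
        rw [← this]; group
      have h4 := cs.length_wordProd_le (α ++ γ)
      rw [← h3] at h4
      have h5 : (α ++ γ).length + 1 = ω.length := by
        rw [hω']; simp only [List.length_append, List.length_cons]; omega
      omega

lemma WeakLE.refl (x : W) : WeakLE cs x x := by unfold WeakLE; simp

lemma WeakLE.antisymm {x y : W} (h : WeakLE cs x y) (h' : WeakLE cs y x) : x = y := by
  unfold WeakLE at *
  have h1 : cs.length (x⁻¹ * y) = 0 := by omega
  rw [cs.length_eq_zero_iff] at h1
  exact inv_mul_eq_one.mp h1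

lemma WeakLE.one (x : W) : WeakLE cs 1 x := by unfold WeakLE; simp

/-- `s ≤ z` if and only if `ℓ(s z) < ℓ(z)` -/
lemma simple_le {i : B} {z : W} : WeakLE cs (cs.simple i) z ↔ cs.length (cs.simple i * z) < cs.length z := by
  unfold WeakLE
  rw [cs.inv_simple, cs.length_simple]
  rcases lcases (cs := cs) i z with h | h <;> omega

/-- the translated interval -/
lemma below {u v z : W} (h : cs.length (u * v) = cs.length u + cs.length v) :
    (WeakLE cs u (u * z) ∧ WeakLE cs (u * z) (u * v)) ↔ WeakLE cs z v := by
  constructor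
  · rintro ⟨h1, h2⟩
    unfold WeakLE at *
    have e1 : u⁻¹ * (u * z) = z := by group
    have e2 : (u * z)⁻¹ * (u * v) = z⁻¹ * v := by group
    rw [e1] at h1; rw [e2] at h2
    omega
  · intro hz
    have := pre h hz
    refine ⟨?_, this.2⟩
    unfold WeakLE
    have e1 : u⁻¹ * (u * z) = z := by group
    rw [e1]; exact this.1

/-- comparison in the translated interval -/
lemma cmp {u v z y : W} (h : cs.length (u * v) = cs.length u + cs.length v) (hz : WeakLE cs z v)
    (hy : WeakLE cs y v) : WeakLE cs (u * z) (u * y) ↔ WeakLE cs z y := by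
  have h1 := (pre h hz).1
  have h2 := (pre h hy).1
  unfold WeakLE at *
  have e2 : (u * z)⁻¹ * (u * y) = z⁻¹ * y := by group
  rw [e2]; omega

end


section
variable {cs : CoxeterSystem M W}

/-- an element different from `1` has a left descent -/
lemma exists_descent {z : W} (hz : z ≠ 1) :
    ∃ i, cs.length (cs.simple i * z) < cs.length z := by
  obtain ⟨ω, hω, hωz⟩ := exists_word (cs := cs) z
  rcases ω with _ | ⟨i, ω⟩
  · exact absurd (by simpa using hωz.symm) hz
  · refine ⟨i, ?_⟩
    have h1 : cs.simple i * z = cs.wordProd ω := by rw [← hωz, cs.wordProd_cons, ss]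
    have h2 : cs.length z = ω.length + 1 := by rw [← hωz, hω.eq]; simp
    have h3 := cs.length_wordProd_le ω
    rw [← h1] at h3; omega

/-- left descents are inherited upwards -/
lemma descent_mono {z v : W} {i : B} (hzv : WeakLE cs z v)
    (hi : cs.length (cs.simple i * z) < cs.length z) :
    cs.length (cs.simple i * v) < cs.length v := by
  unfold WeakLE at hzv
  have e : cs.simple i * v = cs.simple i * z * (z⁻¹ * v) := by group
  have := cs.length_mul_le (cs.simple i * z) (z⁻¹ * v)
  rw [← e] at this; omega

/-- If `[1, v]` is closed under left multiplication by the left descents of `v`, then `v` is the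
only element of `[1, v]` above all these descents. -/
lemma eq_top {v z : W}
    (hcl : ∀ i, cs.length (cs.simple i * v) < cs.length v → ∀ x, WeakLE cs x v →
      WeakLE cs (cs.simple i * x) v)
    (hz : WeakLE cs z v)
    (hd : ∀ i, cs.length (cs.simple i * v) < cs.length v → cs.length (cs.simple i * z) < cs.length z) :
    z = v := by
  set J : Set B := {i | cs.length (cs.simple i * v) < cs.length v} with hJ
  have hmem : ∀ n : ℕ, ∀ x, cs.length x ≤ n → WeakLE cs x v → x ∈ WJ cs J := by
    intro n
    induction n with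
    | zero =>
      intro x hx _
      have : x = 1 := cs.length_eq_zero_iff.mp (by omega)
      rw [this]; exact Subgroup.one_mem _
    | succ n ih =>
      intro x hx hxv
      by_cases hx1 : x = 1
      · rw [hx1]; exact Subgroup.one_mem _
      obtain ⟨i, hi⟩ := exists_descent (cs := cs) hx1
      have hiJ : i ∈ J := descent_mono hxv hi
      have h1 := ih (cs.simple i * x) (by omega) (hcl i hiJ x hxv)
      have h2 := Subgroup.mul_mem _ (Subgroup.subset_closure ⟨i, hiJ, rfl⟩ : cs.simple i ∈ WJ cs J) h1
      rwa [ss] at h2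
  have hzJ : z ∈ WJ cs J := hmem _ z le_rfl hz
  have hvJ : v ∈ WJ cs J := hmem _ v le_rfl (WeakLE.refl v)
  have hR := fix_right hzJ (fun i hi => L_fix_iff.mpr (hd i hi))
  by_contra hne
  have hy1 : z⁻¹ * v ≠ 1 := fun h => hne (inv_mul_eq_one.mp h)
  obtain ⟨j, hj⟩ := exists_descent (cs := cs) hy1
  have hjJ : j ∈ J := (desc_mem (Subgroup.mul_mem _ (Subgroup.inv_mem _ hzJ) hvJ) hj).1
  have h1 : cs.length (z * (z⁻¹ * v)) = cs.length z + cs.length (z⁻¹ * v) := by
    rw [mul_inv_cancel_left]; exact hz
  have h2 := (pre h1 (simple_le.mpr hj)).1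
  have h3 := R_fix_iff.mp (hR j hjJ)
  rw [cs.length_simple] at h2
  omega

end

end Pool.Agent.V1121.UC
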